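import Pool.Agent.helper90.KMMP.Main

/-!
# MP_c8c12f_ag: log terminal models of pseudo-effective generalized pairs need not exist

The pair is `(X, T / 2 + θ)`: `X` is the crepant resolution of the quotient of the abelian threefold
`E × E × E`, `E = ℂ / ℤ[ω]`, by the cube root of unity `ω`, the surface `T` is the strict transform
of the image of `{z₂ = 0}` and `θ` is the nef class of the closed positive form
`i ∂ ∂bar |z₀ + √2 z₁| ^ 2`.
-/

namespace Pool.Agent.Results.MP_c8c12f_ag.NoLogTerminalModel

open Pool.Agent.helper90.KMMP

/-- There is a compact Kähler log smooth generalized klt pair `(X, B + β)` of dimension three with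
`K_X + B + β` pseudo-effective which has no (weak) log terminal model. -/
theorem result : ∃ A : GkltPair 3, A.Pseudoeffective ∧ IsEmpty (WeakLogTerminalModel A) :=
  main

end Pool.Agent.Results.MP_c8c12f_ag.NoLogTerminalModel
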